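import Pool.Agent.H55.QCL.APR

/-!
# ADC: completions of number fields are local fields
-/

set_option autoImplicit false

open NumberField IsDedekindDomain Pool.Agent.H32.QC WithZeroMulInt
open IsDedekindDomain.HeightOneSpectrum NumberField.HeightOneSpectrum
open scoped NNReal WithZero Valued

namespace Pool.Agent.H55.QCL

theorem pf_ADC (hAPR : T_APR) : T_ADC := by
  intro K _ _ v
  have hq := one_lt_q v
  have hcz : CharZero (v.adicCompletion K) :=
    charZero_of_injective_algebraMap (algebraMap K (v.adicCompletion K)).injective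
  obtain ⟨π, hπ⟩ := v.valuation_exists_uniformizer K
  have ha : ‖ic v π‖ = (Ideal.absNorm v.asIdeal : ℝ) ^ (-1 : ℤ) := norm_ic_exp v π (-1) hπ
  have hbig : ∃ x : v.adicCompletion K, 1 < ‖x‖ := by
    refine ⟨(ic v π)⁻¹, ?_⟩
    rw [norm_inv, ha, zpow_neg_one, inv_inv]
    exact hq
  refine ⟨?_, hcz, hbig⟩
  rw [Valued.integer.properSpace_iff_completeSpace_and_isDiscreteValuationRing_integer_and_finite_residueField]
  refine ⟨inferInstance, ?_, ?_⟩
  · exact (inferInstance : IsDiscreteValuationRing (v.adicCompletionIntegers K))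
  · -- the residue field is a quotient of the ring of integers
    have hnv : ∀ x : v.adicCompletion K, ‖x‖ ≤ 1 ↔ Valued.v x ≤ 1 := by
      intro x
      rw [FinitePlace.norm_def]
      rw [← toNNReal_le_one_iff (one_lt_absNorm_nnreal v)]
      norm_cast
    have hnv' : ∀ x : v.adicCompletion K, ‖x‖ < 1 ↔ Valued.v x < 1 := by
      intro x
      rw [FinitePlace.norm_def]
      rw [← toNNReal_lt_one_iff (one_lt_absNorm_nnreal v)]
      norm_cast
    have hlt : ∀ z : 𝒪[v.adicCompletion K], Valued.v (z : v.adicCompletion K) < 1 →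
        IsLocalRing.residue 𝒪[v.adicCompletion K] z = 0 := by
      intro z hz
      rw [IsLocalRing.residue_eq_zero_iff, IsLocalRing.mem_maximalIdeal, mem_nonunits_iff]
      rintro ⟨u, rfl⟩
      have h1 : (u : 𝒪[v.adicCompletion K]) * ((u⁻¹ : 𝒪[v.adicCompletion K]ˣ) :
          𝒪[v.adicCompletion K]) = 1 := u.mul_inv
      have h2 : ((u : 𝒪[v.adicCompletion K]) : v.adicCompletion K) *
          (((u⁻¹ : 𝒪[v.adicCompletion K]ˣ) : 𝒪[v.adicCompletion K]) : v.adicCompletion K) = 1 :=
        congrArg Subtype.val h1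
      have h3 : Valued.v (((u⁻¹ : 𝒪[v.adicCompletion K]ˣ) : 𝒪[v.adicCompletion K]) :
          v.adicCompletion K) ≤ 1 := ((u⁻¹ : 𝒪[v.adicCompletion K]ˣ) :
          𝒪[v.adicCompletion K]).2
      have h4 := congrArg (Valued.v (R := v.adicCompletion K)) h2
      rw [map_mul, map_one] at h4
      have h5 : Valued.v ((u : 𝒪[v.adicCompletion K]) : v.adicCompletion K) *
          Valued.v (((u⁻¹ : 𝒪[v.adicCompletion K]ˣ) : 𝒪[v.adicCompletion K]) :
            v.adicCompletion K) < 1 := mul_lt_one_of_lt_of_le hz h3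
      exact h5.ne h4
    let f0 : 𝓞 K →+* 𝒪[v.adicCompletion K] :=
      ((ic v).comp (algebraMap (𝓞 K) K)).codRestrict _ fun x => by
        show Valued.v (ic v (algebraMap (𝓞 K) K x)) ≤ 1
        rw [← hnv]
        exact FinitePlace.norm_le_one K v x
    have hf0 : ∀ x, ((f0 x : 𝒪[v.adicCompletion K]) : v.adicCompletion K) =
        ic v (algebraMap (𝓞 K) K x) := fun x => rfl
    let f : 𝓞 K →+* 𝓀[v.adicCompletion K] := (IsLocalRing.residue 𝒪[v.adicCompletion K]).comp f0
    have hsurj : Function.Surjective f := by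
      intro y
      obtain ⟨z, rfl⟩ := IsLocalRing.residue_surjective y
      obtain ⟨x, hx⟩ := (hAPR K v (z : v.adicCompletion K) 1 one_pos).2 ((hnv _).2 z.2)
      refine ⟨x, ?_⟩
      show IsLocalRing.residue 𝒪[v.adicCompletion K] (f0 x) = _
      rw [← sub_eq_zero, ← map_sub]
      apply hlt
      rw [← hnv']
      exact hx
    have hker : ∀ x ∈ v.asIdeal, f x = 0 := by
      intro x hx
      apply hlt
      rw [hf0, ← hnv']
      exact (FinitePlace.norm_lt_one_iff_mem K v x).2 hx
    have hfin : Finite (𝓞 K ⧸ v.asIdeal) := v.asIdeal.finiteQuotientOfFreeOfNeBot v.ne_bot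
    exact Finite.of_surjective (Ideal.Quotient.lift v.asIdeal f hker)
      (Ideal.Quotient.lift_surjective_of_surjective _ _ hsurj)

end Pool.Agent.H55.QCL
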