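import Pool.Agent.H32.QC.TargetsL

/-!
# APR: approximation of local integers by integers
-/

set_option autoImplicit false

open NumberField IsDedekindDomain Pool.Agent.H32.QC WithZeroMulInt
open IsDedekindDomain.HeightOneSpectrum NumberField.HeightOneSpectrum
open scoped NNReal WithZero

namespace Pool.Agent.H55.QCL

theorem toNN_exp {e : ℝ≥0} (he : e ≠ 0) (n : ℤ) : toNNReal he (WithZero.exp n) = e ^ n := by
  rw [toNNReal_neg_apply he WithZero.exp_ne_zero]
  rfl

variable {K : Type} [Field K] [NumberField K] (v : FPl K)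

theorem norm_ic (x : K) : ‖ic v x‖ = (toNNReal (absNorm_ne_zero v) (v.valuation K x) : ℝ) :=
  FinitePlace.norm_embedding' v x

theorem norm_ic_exp (x : K) (n : ℤ) (h : v.valuation K x = WithZero.exp n) :
    ‖ic v x‖ = (Ideal.absNorm v.asIdeal : ℝ) ^ n := by
  rw [norm_ic, h, toNN_exp]
  push_cast
  rfl

theorem one_lt_q : (1 : ℝ) < (Ideal.absNorm v.asIdeal : ℝ) := by
  exact_mod_cast one_lt_absNorm v

theorem pf_APR : T_APR := by
  intro K _ _ v y e he
  have hdense : ∀ e : ℝ, 0 < e → ∃ x : K, ‖ic v x - y‖ < e := by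
    intro e he
    have h := HeightOneSpectrum.denseRange_algebraMap (K := K) (v := v)
    obtain ⟨x, hx⟩ := Metric.denseRange_iff.1 h y e he
    refine ⟨x, ?_⟩
    rw [dist_comm, dist_eq_norm] at hx
    exact hx
  refine ⟨hdense e he, fun hy => ?_⟩
  obtain ⟨x, hx⟩ := hdense (min e 1) (lt_min he one_pos)
  have hx1 : ‖ic v x‖ ≤ 1 := by
    have h1 : ic v x = (ic v x - y) + y := by ring
    rw [h1]
    refine (IsUltrametricDist.norm_add_le_max _ _).trans (max_le ?_ hy)
    exact (hx.trans_le (min_le_right _ _)).le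
  have hx2 : v.valuation K x ≤ 1 := by
    rw [norm_ic] at hx1
    exact (toNNReal_le_one_iff (one_lt_absNorm_nnreal v)).1 (by exact_mod_cast hx1)
  -- choose a small radius
  have hq := one_lt_q v
  obtain ⟨n, hn⟩ := exists_pow_lt_of_lt_one he (inv_lt_one_of_one_lt₀ hq)
  obtain ⟨a, ha⟩ := exists_valuation_sub_lt_of_integer (K := K) v hx2
    (Units.mk0 (WithZero.exp (-(n : ℤ))) WithZero.exp_ne_zero)
  refine ⟨a, ?_⟩
  have h2 : ‖ic v ((a : K) - x)‖ < e := by
    rw [norm_ic]
    have h3 : toNNReal (absNorm_ne_zero v) (v.valuation K ((a : K) - x)) <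
        toNNReal (absNorm_ne_zero v) (WithZero.exp (-(n : ℤ))) :=
      toNNReal_strictMono (one_lt_absNorm_nnreal v) ha
    rw [toNN_exp] at h3
    refine lt_of_lt_of_le (b := (((Ideal.absNorm v.asIdeal : ℝ≥0) ^ (-(n : ℤ)) : ℝ≥0) : ℝ))
      (by exact_mod_cast h3) ?_
    push_cast
    rw [zpow_neg, zpow_natCast, ← inv_pow]
    exact hn.le
  have h4 : ic v (a : K) - y = ic v ((a : K) - x) + (ic v x - y) := by
    rw [map_sub]; ring
  rw [h4]
  exact (IsUltrametricDist.norm_add_le_max _ _).trans_lt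
    (max_lt h2 (hx.trans_le (min_le_left _ _)))

end Pool.Agent.H55.QCL
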