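import Pool.Agent.H32.QC.TargetsL

/-!
# CAR: the number of square classes of a local field
-/

set_option autoImplicit false

open NumberField IsDedekindDomain Pool.Agent.H32.QC Filter Topology

namespace Pool.Agent.H55.QCL

theorem pf_CAR (hSQI : T_SQI) (hHEN : T_HEN) (hUIX : T_UIX) (hOFI : T_OFI) (hVAL : T_VAL) :
    T_CAR := by
  intro K _ _ _ _
  have h2 : 0 < ‖(2 : K)‖ := norm_pos_iff.2 two_ne_zero
  have h2le : ‖(2 : K)‖ ≤ 1 := by
    have h : (2 : K) = 1 + 1 := by norm_num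
    rw [h]
    refine (IsUltrametricDist.norm_add_le_max _ _).trans ?_
    simp
  have hc2 : c2 K ≠ 0 := (hOFI K 2 two_ne_zero).2 1
  refine ⟨?_, hc2⟩
  obtain ⟨π, hπ0, hπ1, hπ⟩ := hVAL K
  have hπn : 0 < ‖π‖ := norm_pos_iff.2 hπ0
  set p : Kˣ := Units.mk0 π hπ0 with hp
  have hpv : (p : K) = π := rfl
  have hpz : ∀ k : ℤ, ‖((p ^ k : Kˣ) : K)‖ = ‖π‖ ^ k := by
    intro k
    rw [Units.val_zpow_eq_zpow_val, hpv, norm_zpow]
  have hz : ∀ k : ℤ, ‖π‖ ^ k = 1 → k = 0 := by
    intro k hk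
    by_contra hne
    rcases lt_or_gt_of_ne hne with h | h
    · have : 1 < ‖π‖ ^ k := one_lt_zpow_of_neg₀ hπn hπ1 h
      exact this.ne' hk
    · have : ‖π‖ ^ k < 1 := zpow_lt_one₀ hπn hπ1 h
      exact this.ne hk
  set c : K := 2 * π with hc
  have hc0 : c ≠ 0 := mul_ne_zero two_ne_zero hπ0
  have hcn : ‖c‖ = ‖(2 : K)‖ * ‖π‖ := norm_mul _ _
  have hc2' : ‖c‖ < ‖(2 : K)‖ := by rw [hcn]; nlinarith
  have hc1 : ‖c‖ < 1 := hc2'.trans_le h2le
  have hUn1 : ∀ (a : K) (u : Kˣ), u ∈ Un K a → ‖(u : K)‖ = 1 := fun a u hu => hu.2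
  set Z : Subgroup Kˣ := Subgroup.zpowers p with hZ
  set U : Subgroup Kˣ := Un K c ⊔ Z with hU
  -- elements of Un K a ⊔ zpowers p
  have hmem : ∀ (a : K) (x : Kˣ), x ∈ Un K a ⊔ Z ↔ ∃ w ∈ Un K a, ∃ k : ℤ, w * p ^ k = x := by
    intro a x
    rw [Subgroup.mem_sup]
    constructor
    · rintro ⟨w, hw, z, hz', rfl⟩
      obtain ⟨k, rfl⟩ := Subgroup.mem_zpowers_iff.1 hz'
      exact ⟨w, hw, k, rfl⟩
    · rintro ⟨w, hw, k, rfl⟩
      exact ⟨w, hw, p ^ k, Subgroup.mem_zpowers_iff.2 ⟨k, rfl⟩, rfl⟩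
  have hnm : ∀ (a : K) (w : Kˣ) (k : ℤ), w ∈ Un K a → ‖((w * p ^ k : Kˣ) : K)‖ = ‖π‖ ^ k := by
    intro a w k hw
    rw [Units.val_mul, norm_mul, hUn1 a w hw, one_mul, hpz]
  -- (1) finite index
  have htop : Un K 1 ⊔ Z = ⊤ := by
    rw [eq_top_iff]
    intro x _
    obtain ⟨n, hn⟩ := hπ (x : K) x.ne_zero
    rw [hmem]
    refine ⟨x * p ^ (-n), ?_, n, ?_⟩
    · have h1 : ‖((x * p ^ (-n) : Kˣ) : K)‖ = 1 := by
        rw [Units.val_mul, norm_mul, hpz, hn, ← zpow_add₀ hπn.ne', add_neg_cancel, zpow_zero]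
      refine ⟨?_, h1⟩
      rw [norm_one]
      have := IsUltrametricDist.norm_add_le_max ((x * p ^ (-n) : Kˣ) : K) (-1)
      rw [norm_neg, norm_one, h1, max_self] at this
      rwa [sub_eq_add_neg]
    · rw [mul_assoc, ← zpow_add, neg_add_cancel, zpow_zero, mul_one]
  have hUindex : U.index ≠ 0 := by
    have h1 : U.relIndex (Un K 1 ⊔ U) = U.relIndex (Un K 1) := Subgroup.relIndex_sup_right _ _
    have h2' : Un K 1 ⊔ U = ⊤ := by
      rw [eq_top_iff, ← htop, hU]
      exact sup_le le_sup_left (le_sup_right.trans le_sup_right)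
    rw [h2', Subgroup.relIndex_top_right] at h1
    rw [h1]
    intro h0
    exact (hOFI K c hc0).1 (Subgroup.relIndex_eq_zero_of_le_left le_sup_left h0)
  -- (2) no torsion
  have htor : ∀ u ∈ U, u ^ 2 = 1 → u = 1 := by
    intro u hu hu2
    obtain ⟨w, hw, k, rfl⟩ := (hmem c u).1 hu
    have h1 : ‖π‖ ^ k = 1 := by
      have h3 : ‖((w * p ^ k : Kˣ) : K)‖ ^ 2 = 1 := by
        rw [← norm_pow, ← Units.val_pow_eq_pow_val, hu2, Units.val_one, norm_one]
      rw [hnm c w k hw] at h3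
      exact (pow_eq_one_iff_of_nonneg (zpow_nonneg hπn.le k) two_ne_zero).1 h3
    have hk := hz k h1
    subst hk
    rw [zpow_zero, mul_one] at hu2 ⊢
    have h4 : (w : K) ^ 2 = 1 := by
      rw [← Units.val_pow_eq_pow_val, hu2, Units.val_one]
    have h5 : ((w : K) - 1) * ((w : K) + 1) = 0 := by linear_combination h4
    rcases mul_eq_zero.1 h5 with h6 | h6
    · exact Units.ext (by rw [Units.val_one]; linear_combination h6)
    · exfalso
      have h7 : (w : K) - 1 = -2 := by linear_combination h6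
      have h8 : ‖(w : K) - 1‖ ≤ ‖c‖ := hw.1
      rw [h7, norm_neg] at h8
      exact absurd h8 (not_le.2 hc2')
  -- (3) torsion of the unit group
  have hcard : Nat.card {a : Kˣ // a ^ 2 = 1} = 2 := by
    rw [Nat.card_eq_two_iff]
    refine ⟨⟨1, one_pow 2⟩, ⟨-1, by rw [neg_sq, one_pow]⟩, ?_, ?_⟩
    · intro h
      have h1 : (1 : Kˣ) = -1 := congrArg Subtype.val h
      have h3 : (1 : K) = -1 := by
        have := congrArg (fun u : Kˣ => (u : K)) h1
        simpa using this
      have h4 : (2 : K) = 0 := by linear_combination h3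
      exact two_ne_zero h4
    · rw [Set.eq_univ_iff_forall]
      rintro ⟨a, ha⟩
      have h4 : (a : K) ^ 2 = 1 := by
        rw [← Units.val_pow_eq_pow_val, ha, Units.val_one]
      have h5 : ((a : K) - 1) * ((a : K) + 1) = 0 := by linear_combination h4
      rcases mul_eq_zero.1 h5 with h6 | h6
      · left
        apply Subtype.ext
        apply Units.ext
        show (a : K) = 1
        linear_combination h6
      · right
        apply Subtype.ext
        apply Units.ext
        show (a : K) = ((-1 : Kˣ) : K)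
        rw [Units.val_neg, Units.val_one]
        linear_combination h6
  -- (4) the index of the squares in U
  have hmain : (U.map (powMonoidHom 2)).relIndex U = 2 * c2 K := by
    set V : Subgroup Kˣ := Un K (2 * c) ⊔ Z with hV
    have h2c : Un K (2 * c) ≤ Un K c := by
      rintro x ⟨hx1, hx2⟩
      refine ⟨hx1.trans ?_, hx2⟩
      rw [norm_mul]
      exact mul_le_of_le_one_left (norm_nonneg _) h2le
    have hVU : V ≤ U := sup_le (h2c.trans le_sup_left) le_sup_right
    have hq : ∀ x : Kˣ, x ∈ U.map (powMonoidHom 2) ↔ ∃ w ∈ Un K (2 * c), ∃ k : ℤ,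
        w * p ^ (2 * k) = x := by
      intro x
      constructor
      · rintro ⟨y, hy, rfl⟩
        obtain ⟨w, hw, k, rfl⟩ := (hmem c y).1 hy
        refine ⟨w ^ 2, ?_, k, ?_⟩
        · rw [← hHEN K c hc0 hc2']
          exact ⟨w, hw, rfl⟩
        · rw [powMonoidHom_apply, mul_pow, mul_comm 2 k, zpow_mul]
          norm_cast
      · rintro ⟨w, hw, k, rfl⟩
        rw [← hHEN K c hc0 hc2'] at hw
        obtain ⟨y, hy, rfl⟩ := hw
        refine ⟨y * p ^ k, (hmem c _).2 ⟨y, hy, k, rfl⟩, ?_⟩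
        rw [powMonoidHom_apply, powMonoidHom_apply, mul_pow, mul_comm 2 k, zpow_mul]
        norm_cast
    have hqV : U.map (powMonoidHom 2) ≤ V := by
      intro x hx
      obtain ⟨w, hw, k, rfl⟩ := (hq x).1 hx
      exact (hmem (2 * c) _).2 ⟨w, hw, 2 * k, rfl⟩
    have e1 : V.relIndex U = c2 K := by
      have h1 : V.relIndex (Un K c ⊔ V) = V.relIndex (Un K c) := Subgroup.relIndex_sup_right _ _
      have h3 : Un K c ⊔ V = U := by
        apply le_antisymm
        · exact sup_le le_sup_left hVU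
        · exact sup_le le_sup_left (le_sup_right.trans le_sup_right)
      rw [h3] at h1
      rw [h1, ← Subgroup.inf_relIndex_right]
      have h4 : V ⊓ Un K c = Un K (2 * c) := by
        apply le_antisymm
        · rintro x ⟨hx1, hx2⟩
          obtain ⟨w, hw, k, rfl⟩ := (hmem (2 * c) x).1 hx1
          have h5 : ‖π‖ ^ k = 1 := by
            rw [← hnm (2 * c) w k hw]
            exact hUn1 c _ hx2
          have hk := hz k h5
          subst hk
          rwa [zpow_zero, mul_one]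
        · exact le_inf le_sup_left h2c
      rw [h4]
      exact hUIX K c hc0 hc1 hc2'.le
    have e2 : (U.map (powMonoidHom 2)).relIndex V = 2 := by
      have hev : ∀ (w : Kˣ) (k : ℤ), w ∈ Un K (2 * c) →
          (w * p ^ k ∈ U.map (powMonoidHom 2) ↔ Even k) := by
        intro w k hw
        rw [hq]
        constructor
        · rintro ⟨w', hw', k', h⟩
          have h5 : ‖π‖ ^ (2 * k') = ‖π‖ ^ k := by
            rw [← hnm (2 * c) w' (2 * k') hw', ← hnm (2 * c) w k hw, h]
          have h6 : ‖π‖ ^ (2 * k' - k) = 1 := by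
            rw [zpow_sub₀ hπn.ne', h5, div_self (zpow_pos hπn k).ne']
          have h7 := hz _ h6
          exact ⟨k', by omega⟩
        · rintro ⟨k', rfl⟩
          exact ⟨w, hw, k', by rw [two_mul]⟩
      rw [Subgroup.relIndex_eq_two_iff]
      refine ⟨p, (hmem (2 * c) p).2 ⟨1, one_mem _, 1, by rw [zpow_one, one_mul]⟩, ?_⟩
      intro b hb
      obtain ⟨w, hw, k, rfl⟩ := (hmem (2 * c) b).1 hb
      have h8 : w * p ^ k * p = w * p ^ (k + 1) := by
        rw [mul_assoc, zpow_add_one]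
      rw [h8, hev w (k + 1) hw, hev w k hw]
      rcases Int.even_or_odd k with hk | hk
      · exact Or.inr ⟨hk, by
          rw [Int.not_even_iff_odd]; exact hk.add_one⟩
      · exact Or.inl ⟨hk.add_one, by rwa [Int.not_even_iff_odd]⟩
    rw [← Subgroup.relIndex_mul_relIndex _ _ _ hqV hVU, e1, e2]
  have := hSQI Kˣ U hUindex htor hcard
  rw [hmain] at this
  unfold nsq
  rw [this]
  ring

end Pool.Agent.H55.QCL
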