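import Pool.Agent.H32.QC.TargetsL

/-!
# CSQ: the index of `2 O` in a quadratic extension
-/

set_option autoImplicit false

open NumberField IsDedekindDomain Pool.Agent.H32.QC Filter Topology

namespace Pool.Agent.H55.QCL

/-- the doubling map -/
noncomputable abbrev dbl (A : Type) [AddCommGroup A] : A →+ A := nsmulAddMonoidHom 2

theorem c2_eq (F : Type) [NontriviallyNormedField F] [IsUltrametricDist F] [CharZero F] :
    c2 F = (dbl (Bl F 1)).range.index := by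
  unfold c2
  show ((Bl F 2).addSubgroupOf (Bl F 1)).index = _
  congr 1
  ext ⟨x, hx⟩
  rw [AddSubgroup.mem_addSubgroupOf]
  have h2 : 0 < ‖(2 : F)‖ := norm_pos_iff.2 two_ne_zero
  constructor
  · intro h
    have h' : ‖x‖ ≤ ‖(2 : F)‖ := h
    refine ⟨⟨x / 2, ?_⟩, ?_⟩
    · show ‖x / 2‖ ≤ ‖(1 : F)‖
      rw [norm_div, norm_one, div_le_one h2]
      exact h'
    · apply Subtype.ext
      show (2 : ℕ) • (x / 2) = x
      rw [nsmul_eq_mul]
      push_cast
      field_simp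
  · rintro ⟨⟨y, hy⟩, h⟩
    have hy' : ‖y‖ ≤ ‖(1 : F)‖ := hy
    have h1 : (2 : ℕ) • y = x := congrArg Subtype.val h
    show ‖x‖ ≤ ‖(2 : F)‖
    rw [← h1, nsmul_eq_mul, norm_mul]
    push_cast
    rw [norm_one] at hy'
    exact mul_le_of_le_one_right (norm_nonneg _) hy'

theorem pf_CSQ (hTFI : T_TFI) (hOFI : T_OFI) : T_CSQ := by
  intro K L _ _ _ _ _ _ _ _ _ hL
  have hfd : FiniteDimensional K L := Module.finite_of_finrank_pos (by rw [hL]; norm_num)
  rw [c2_eq L, c2_eq K]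
  let b : Module.Basis (Fin 2) K L := Module.finBasisOfFinrankEq K L hL
  -- a scaling factor
  obtain ⟨κ, hκ0, hκ1⟩ := NormedField.exists_norm_lt K
    (r := (‖b 0‖ + ‖b 1‖ + 1)⁻¹) (by positivity)
  have hκ : κ ≠ 0 := norm_pos_iff.1 hκ0
  have hbκ : ∀ i, ‖κ‖ * ‖b i‖ ≤ 1 := by
    intro i
    have h1 : ‖b i‖ ≤ ‖b 0‖ + ‖b 1‖ + 1 := by
      fin_cases i <;> simp <;> nlinarith [norm_nonneg (b 0), norm_nonneg (b 1)]
    have h2 : 0 < ‖b 0‖ + ‖b 1‖ + 1 := by positivity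
    calc ‖κ‖ * ‖b i‖ ≤ (‖b 0‖ + ‖b 1‖ + 1)⁻¹ * (‖b 0‖ + ‖b 1‖ + 1) := by
          gcongr
      _ = 1 := inv_mul_cancel₀ h2.ne'
  let e : Fin 2 → L := fun i => κ • b i
  have he : ∀ i, ‖e i‖ ≤ 1 := by
    intro i
    show ‖κ • b i‖ ≤ 1
    rw [norm_smul]
    exact hbκ i
  let φ : (Bl K 1 × Bl K 1) →+ Bl L 1 :=
    { toFun := fun z => ⟨(z.1 : K) • e 0 + (z.2 : K) • e 1, by
        have h1 : ‖(z.1 : K)‖ ≤ 1 := by
          have : ‖(z.1 : K)‖ ≤ ‖(1 : K)‖ := z.1.2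
          rwa [norm_one] at this
        have h2 : ‖(z.2 : K)‖ ≤ 1 := by
          have : ‖(z.2 : K)‖ ≤ ‖(1 : K)‖ := z.2.2
          rwa [norm_one] at this
        show ‖(z.1 : K) • e 0 + (z.2 : K) • e 1‖ ≤ ‖(1 : L)‖
        rw [norm_one]
        refine (IsUltrametricDist.norm_add_le_max _ _).trans (max_le ?_ ?_)
        · rw [norm_smul]
          exact mul_le_one₀ h1 (norm_nonneg _) (he 0)
        · rw [norm_smul]
          exact mul_le_one₀ h2 (norm_nonneg _) (he 1)⟩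
      map_zero' := by
        apply Subtype.ext
        show ((0 : K)) • e 0 + (0 : K) • e 1 = 0
        simp
      map_add' := by
        intro x y
        apply Subtype.ext
        show ((x.1 : K) + (y.1 : K)) • e 0 + ((x.2 : K) + (y.2 : K)) • e 1 =
          ((x.1 : K) • e 0 + (x.2 : K) • e 1) + ((y.1 : K) • e 0 + (y.2 : K) • e 1)
        module }
  have hφv : ∀ z, ((φ z : Bl L 1) : L) = (z.1 : K) • e 0 + (z.2 : K) • e 1 := fun z => rfl
  have hcoord : ∀ (x y : K), b.coord 0 (x • e 0 + y • e 1) = x * κ ∧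
      b.coord 1 (x • e 0 + y • e 1) = y * κ := by
    intro x y
    constructor
    · simp [e, Module.Basis.coord_apply, Finsupp.single_apply]
    · simp [e, Module.Basis.coord_apply, Finsupp.single_apply]
  have hinj : Function.Injective φ := by
    rintro ⟨x, y⟩ ⟨x', y'⟩ h
    have h1 : (x : K) • e 0 + (y : K) • e 1 = (x' : K) • e 0 + (y' : K) • e 1 :=
      congrArg Subtype.val h
    have h2 := congrArg (b.coord 0) h1
    have h3 := congrArg (b.coord 1) h1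
    rw [(hcoord _ _).1, (hcoord _ _).1] at h2
    rw [(hcoord _ _).2, (hcoord _ _).2] at h3
    have h4 := mul_right_cancel₀ hκ h2
    have h5 := mul_right_cancel₀ hκ h3
    exact Prod.ext (Subtype.ext h4) (Subtype.ext h5)
  -- the lattice has finite index
  obtain ⟨C, hC0, hC⟩ : ∃ C : ℝ, 0 < C ∧ ∀ (i : Fin 2) (z : L), ‖b.coord i z‖ ≤ C * ‖z‖ := by
    let f0 : L →L[K] K := LinearMap.toContinuousLinearMap (b.coord 0)
    let f1 : L →L[K] K := LinearMap.toContinuousLinearMap (b.coord 1)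
    refine ⟨‖f0‖ + ‖f1‖ + 1, by positivity, fun i z => ?_⟩
    have h0 : ‖b.coord 0 z‖ ≤ ‖f0‖ * ‖z‖ := f0.le_opNorm z
    have h1 : ‖b.coord 1 z‖ ≤ ‖f1‖ * ‖z‖ := f1.le_opNorm z
    have hz := norm_nonneg z
    have hf0 := norm_nonneg f0
    have hf1 := norm_nonneg f1
    fin_cases i
    · show ‖b.coord 0 z‖ ≤ _
      nlinarith [mul_nonneg hf1 hz]
    · show ‖b.coord 1 z‖ ≤ _
      nlinarith [mul_nonneg hf0 hz]
  obtain ⟨c, hc0, hc1⟩ := NormedField.exists_norm_lt K (r := ‖κ‖ / C) (by positivity)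
  have hcne : c ≠ 0 := norm_pos_iff.1 hc0
  have hle : (Bl L (algebraMap K L c)).addSubgroupOf (Bl L 1) ≤ φ.range := by
    rintro ⟨z, hz⟩ hz2
    rw [AddSubgroup.mem_addSubgroupOf] at hz2
    have hz3 : ‖z‖ ≤ ‖algebraMap K L c‖ := hz2
    rw [norm_algebraMap'] at hz3
    have hb : ∀ i, ‖b.coord i z / κ‖ ≤ ‖(1 : K)‖ := by
      intro i
      rw [norm_div, norm_one, div_le_one hκ0]
      calc ‖b.coord i z‖ ≤ C * ‖z‖ := hC i z
        _ ≤ C * (‖κ‖ / C) := by gcongr; exact hz3.trans hc1.le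
        _ = ‖κ‖ := by field_simp
    refine ⟨(⟨b.coord 0 z / κ, hb 0⟩, ⟨b.coord 1 z / κ, hb 1⟩), ?_⟩
    apply Subtype.ext
    show (b.coord 0 z / κ) • e 0 + (b.coord 1 z / κ) • e 1 = z
    have h1 : z = b.coord 0 z • b 0 + b.coord 1 z • b 1 := by
      conv_lhs => rw [← b.sum_repr z]
      rw [Fin.sum_univ_two]
      rfl
    conv_rhs => rw [h1]
    show (b.coord 0 z / κ) • (κ • b 0) + (b.coord 1 z / κ) • (κ • b 1) = _
    rw [smul_smul, smul_smul, div_mul_cancel₀ _ hκ, div_mul_cancel₀ _ hκ]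
  have hBidx : φ.range.index ≠ 0 := by
    intro h0
    have h1 : (Bl L (algebraMap K L c)).relIndex (Bl L 1) ≠ 0 :=
      (hOFI L (algebraMap K L c) (by simpa using hcne)).2 1
    apply h1
    show ((Bl L (algebraMap K L c)).addSubgroupOf (Bl L 1)).index = 0
    have h2 := AddSubgroup.index_dvd_of_le hle
    rw [h0] at h2
    exact Nat.eq_zero_of_zero_dvd h2
  have htors : ∀ x : Bl L 1, 2 • x = 0 → x = 0 := by
    rintro ⟨x, hx⟩ h
    have h1 : (2 : ℕ) • x = 0 := congrArg Subtype.val h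
    rw [nsmul_eq_mul] at h1
    push_cast at h1
    have h2 : x = 0 := by
      rcases mul_eq_zero.1 h1 with h3 | h3
      · exact absurd h3 two_ne_zero
      · exact h3
    exact Subtype.ext h2
  have h1 := hTFI (Bl L 1) htors φ.range hBidx
  show (nsmulAddMonoidHom 2 : Bl L 1 →+ Bl L 1).range.index = _
  rw [h1]
  -- transport to the product
  have e1 : φ.range.map (nsmulAddMonoidHom 2) = (dbl (Bl K 1 × Bl K 1)).range.map φ := by
    ext x
    constructor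
    · rintro ⟨_, ⟨z, rfl⟩, rfl⟩
      refine ⟨2 • z, ⟨z, rfl⟩, ?_⟩
      show φ (2 • z) = 2 • φ z
      rw [map_nsmul]
    · rintro ⟨_, ⟨z, rfl⟩, rfl⟩
      refine ⟨φ z, ⟨z, rfl⟩, ?_⟩
      show 2 • φ z = φ (2 • z)
      rw [map_nsmul]
  have e2 : φ.range = (⊤ : AddSubgroup (Bl K 1 × Bl K 1)).map φ := by
    rw [AddMonoidHom.range_eq_map]
  rw [e1]
  conv_lhs => rw [e2]
  rw [AddSubgroup.relIndex_map_map_of_injective _ _ hinj, AddSubgroup.relIndex_top_right]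
  have e3 : (dbl (Bl K 1 × Bl K 1)).range = (dbl (Bl K 1)).range.prod (dbl (Bl K 1)).range := by
    ext ⟨x, y⟩
    constructor
    · rintro ⟨⟨z, w⟩, h⟩
      have h2 : (2 • z, 2 • w) = (x, y) := h
      rw [Prod.mk.injEq] at h2
      exact ⟨⟨z, h2.1⟩, ⟨w, h2.2⟩⟩
    · rintro ⟨⟨z, hz⟩, ⟨w, hw⟩⟩
      exact ⟨(z, w), Prod.ext hz hw⟩
  rw [e3, AddSubgroup.index_prod, sq]

end Pool.Agent.H55.QCL
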