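import Pool.Agent.H55.QCL.APR

/-!
# CTW: the order of `O / 2 O` in a completion
-/

set_option autoImplicit false

open NumberField IsDedekindDomain Pool.Agent.H32.QC WithZeroMulInt
open IsDedekindDomain.HeightOneSpectrum NumberField.HeightOneSpectrum
open scoped NNReal WithZero

namespace Pool.Agent.H55.QCL

theorem val_lt_one {m : ℤᵐ⁰} (h : m < 1) : m ≤ WithZero.exp (-1 : ℤ) := by
  by_cases h0 : m = 0
  · rw [h0]; exact _root_.zero_le
  · obtain ⟨n, rfl⟩ : ∃ n : ℤ, m = WithZero.exp n := ⟨_, (WithZero.exp_log h0).symm⟩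
    rw [← WithZero.exp_zero, WithZero.exp_lt_exp] at h
    rw [WithZero.exp_le_exp]
    omega

variable {K : Type} [Field K] [NumberField K] (v : FPl K)

theorem index_one (π : K) (hπ : v.valuation K π = WithZero.exp (-1 : ℤ)) (hAPR : T_APR) :
    (Bl (v.adicCompletion K) (ic v π)).relIndex (Bl (v.adicCompletion K) 1) =
      Ideal.absNorm v.asIdeal := by
  have hq := one_lt_q v
  have ha : ‖ic v π‖ = (Ideal.absNorm v.asIdeal : ℝ) ^ (-1 : ℤ) := norm_ic_exp v π (-1) hπ
  have ha0 : 0 < ‖ic v π‖ := by rw [ha]; positivity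
  let ψ : 𝓞 K →+ Bl (v.adicCompletion K) 1 :=
    { toFun := fun x => ⟨ic v (x : K), by
        show ‖ic v (x : K)‖ ≤ ‖(1 : v.adicCompletion K)‖
        rw [norm_one]
        exact FinitePlace.norm_le_one K v x⟩
      map_zero' := by
        apply Subtype.ext
        show ic v ((0 : 𝓞 K) : K) = 0
        simp
      map_add' := by
        intro x y
        apply Subtype.ext
        show ic v ((x + y : 𝓞 K) : K) = ic v (x : K) + ic v (y : K)
        simp }
  set D := (Bl (v.adicCompletion K) (ic v π)).addSubgroupOf (Bl (v.adicCompletion K) 1) with hD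
  let f : 𝓞 K →+ (Bl (v.adicCompletion K) 1 ⧸ D) := (QuotientAddGroup.mk' D).comp ψ
  have hsurj : Function.Surjective f := by
    intro y
    obtain ⟨⟨z, hz⟩, rfl⟩ := QuotientAddGroup.mk_surjective y
    have hz' : ‖z‖ ≤ 1 := by
      have : ‖z‖ ≤ ‖(1 : v.adicCompletion K)‖ := hz
      rwa [norm_one] at this
    obtain ⟨x, hx⟩ := (hAPR K v z _ ha0).2 hz'
    refine ⟨x, ?_⟩
    show (QuotientAddGroup.mk (ψ x) : Bl (v.adicCompletion K) 1 ⧸ D) = _
    rw [QuotientAddGroup.eq, hD, AddSubgroup.mem_addSubgroupOf]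
    show ‖-(ic v (x : K)) + z‖ ≤ ‖ic v π‖
    rw [← norm_neg, neg_add, neg_neg, ← sub_eq_add_neg]
    exact hx.le
  have hker : f.ker = v.asIdeal.toAddSubgroup := by
    ext x
    rw [AddMonoidHom.mem_ker]
    show (QuotientAddGroup.mk (ψ x) : Bl (v.adicCompletion K) 1 ⧸ D) = 0 ↔ x ∈ v.asIdeal
    rw [QuotientAddGroup.eq_zero_iff, hD, AddSubgroup.mem_addSubgroupOf]
    show ‖ic v (x : K)‖ ≤ ‖ic v π‖ ↔ _
    rw [← FinitePlace.norm_lt_one_iff_mem K v x]
    show _ ↔ ‖ic v (x : K)‖ < 1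
    constructor
    · intro h
      refine h.trans_lt ?_
      rw [ha, zpow_neg_one]
      exact inv_lt_one_of_one_lt₀ hq
    · intro h
      rw [norm_ic] at h
      rw [norm_ic, norm_ic, hπ]
      have h1 : v.valuation K (x : K) < 1 :=
        (toNNReal_lt_one_iff (one_lt_absNorm_nnreal v)).1 (by exact_mod_cast h)
      have h2 := (toNNReal_strictMono (one_lt_absNorm_nnreal v)).monotone (val_lt_one h1)
      exact_mod_cast h2
  have h1 : f.ker.index = Nat.card f.range := AddSubgroup.index_ker f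
  have h2 : Nat.card f.range = Nat.card (Bl (v.adicCompletion K) 1 ⧸ D) := by
    rw [AddMonoidHom.range_eq_top.2 hsurj]
    exact Nat.card_congr (AddSubgroup.topEquiv.toEquiv)
  rw [hker] at h1
  show Nat.card (Bl (v.adicCompletion K) 1 ⧸ D) = _
  rw [← h2, ← h1, Ideal.absNorm_apply]
  rfl

theorem index_pow (π : K) (hπ : v.valuation K π = WithZero.exp (-1 : ℤ)) (hAPR : T_APR) (n : ℕ) :
    (Bl (v.adicCompletion K) (ic v π ^ n)).relIndex (Bl (v.adicCompletion K) 1) =
      Ideal.absNorm v.asIdeal ^ n := by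
  have hq := one_lt_q v
  have ha : ‖ic v π‖ = (Ideal.absNorm v.asIdeal : ℝ) ^ (-1 : ℤ) := norm_ic_exp v π (-1) hπ
  have ha0 : 0 < ‖ic v π‖ := by rw [ha]; positivity
  have ha1 : ‖ic v π‖ ≤ 1 := by
    rw [ha, zpow_neg_one]
    exact (inv_lt_one_of_one_lt₀ hq).le
  have hane : ic v π ≠ 0 := norm_pos_iff.1 ha0
  induction n with
  | zero =>
    rw [pow_zero, pow_zero]
    exact AddSubgroup.relIndex_self _
  | succ n ih =>
    let m : v.adicCompletion K →+ v.adicCompletion K := AddMonoidHom.mulLeft (ic v π ^ n)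
    have hm : Function.Injective m := by
      intro x y h
      exact mul_left_cancel₀ (pow_ne_zero n hane) h
    have hmap : ∀ c : v.adicCompletion K,
        (Bl (v.adicCompletion K) c).map m = Bl (v.adicCompletion K) (ic v π ^ n * c) := by
      intro c
      ext x
      constructor
      · rintro ⟨y, hy, rfl⟩
        have hy' : ‖y‖ ≤ ‖c‖ := hy
        show ‖ic v π ^ n * y‖ ≤ ‖ic v π ^ n * c‖
        rw [norm_mul, norm_mul]
        gcongr
      · intro hx
        have hx' : ‖x‖ ≤ ‖ic v π ^ n * c‖ := hx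
        refine ⟨x / ic v π ^ n, ?_, ?_⟩
        · show ‖x / ic v π ^ n‖ ≤ ‖c‖
          rw [norm_div, div_le_iff₀ (by rw [norm_pow]; positivity), mul_comm, ← norm_mul]
          exact hx'
        · show ic v π ^ n * (x / ic v π ^ n) = x
          field_simp
    have h1 := AddSubgroup.relIndex_map_map_of_injective (Bl (v.adicCompletion K) (ic v π))
      (Bl (v.adicCompletion K) 1) hm
    rw [hmap, hmap, mul_one, ← pow_succ, index_one v π hπ hAPR] at h1
    have hle1 : Bl (v.adicCompletion K) (ic v π ^ (n + 1)) ≤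
        Bl (v.adicCompletion K) (ic v π ^ n) := by
      intro x hx
      have hx' : ‖x‖ ≤ ‖ic v π ^ (n + 1)‖ := hx
      show ‖x‖ ≤ ‖ic v π ^ n‖
      refine hx'.trans ?_
      rw [norm_pow, norm_pow]
      exact pow_le_pow_of_le_one ha0.le ha1 (Nat.le_succ n)
    have hle2 : Bl (v.adicCompletion K) (ic v π ^ n) ≤ Bl (v.adicCompletion K) 1 := by
      intro x hx
      have hx' : ‖x‖ ≤ ‖ic v π ^ n‖ := hx
      show ‖x‖ ≤ ‖(1 : v.adicCompletion K)‖
      rw [norm_one]
      refine hx'.trans ?_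
      rw [norm_pow]
      exact pow_le_one₀ ha0.le ha1
    rw [← AddSubgroup.relIndex_mul_relIndex _ _ _ hle1 hle2, h1, ih, pow_succ]
    ring

theorem pf_CTW (hAPR : T_APR) : T_CTW := by
  intro K _ _ v
  obtain ⟨π, hπ⟩ := v.valuation_exists_uniformizer K
  have hq := one_lt_q v
  have ha : ‖ic v π‖ = (Ideal.absNorm v.asIdeal : ℝ) ^ (-1 : ℤ) := norm_ic_exp v π (-1) hπ
  have h2ne : v.valuation K (2 : K) ≠ 0 := (v.valuation K).ne_zero_iff.2 two_ne_zero
  have h2le : v.valuation K (2 : K) ≤ 1 := by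
    have h4 : v.valuation K (algebraMap (𝓞 K) K 2) ≤ 1 := v.valuation_le_one (K := K) (2 : 𝓞 K)
    have h5 : algebraMap (𝓞 K) K 2 = 2 := map_ofNat (algebraMap (𝓞 K) K) 2
    rwa [h5] at h4
  obtain ⟨n, hn⟩ : ∃ n : ℤ, v.valuation K (2 : K) = WithZero.exp n :=
    ⟨_, (WithZero.exp_log h2ne).symm⟩
  have hn0 : n ≤ 0 := by
    rw [hn, ← WithZero.exp_zero, WithZero.exp_le_exp] at h2le
    exact h2le
  obtain ⟨e, he⟩ := Int.eq_ofNat_of_zero_le (neg_nonneg.2 hn0)
  have h2 : ‖(2 : v.adicCompletion K)‖ = (Ideal.absNorm v.asIdeal : ℝ) ^ (-(e : ℤ)) := by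
    have h3 : (2 : v.adicCompletion K) = ic v (2 : K) := (map_ofNat (ic v) 2).symm
    rw [h3, norm_ic_exp v 2 n hn]
    congr 1
    omega
  have hpow : ‖ic v π ^ e‖ = ‖(2 : v.adicCompletion K)‖ := by
    rw [h2, norm_pow, ha, zpow_neg_one, zpow_neg, zpow_natCast, inv_pow]
  have hBl : Bl (v.adicCompletion K) 2 = Bl (v.adicCompletion K) (ic v π ^ e) := by
    ext x
    show ‖x‖ ≤ ‖(2 : v.adicCompletion K)‖ ↔ ‖x‖ ≤ ‖ic v π ^ e‖
    rw [hpow]
  unfold c2
  rw [hBl, index_pow v π hπ hAPR e, h2]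
  push_cast
  rw [zpow_neg, zpow_natCast]
  exact mul_inv_cancel₀ (pow_ne_zero e (by positivity))

end Pool.Agent.H55.QCL
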