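import Pool.Agent.H32.QC.TargetsL

/-!
# HEN and OPN: squares of small units
-/

set_option autoImplicit false

open NumberField IsDedekindDomain Pool.Agent.H32.QC Filter Topology

namespace Pool.Agent.H55.QCL

variable {K : Type} [NontriviallyNormedField K] [IsUltrametricDist K]

theorem norm_two_le : ‖(2 : K)‖ ≤ 1 := by
  have h : (2 : K) = 1 + 1 := by norm_num
  rw [h]
  refine (IsUltrametricDist.norm_add_le_max _ _).trans ?_
  simp

theorem norm_sub_le_max' (x y : K) : ‖x - y‖ ≤ max ‖x‖ ‖y‖ := by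
  rw [sub_eq_add_neg, ← norm_neg y]
  exact IsUltrametricDist.norm_add_le_max x (-y)

theorem norm_one_add {y : K} (hy : ‖y‖ < 1) : ‖1 + y‖ = 1 := by
  have h : ‖y‖ ≠ ‖(1 : K)‖ := by rw [norm_one]; exact hy.ne
  have := IsUltrametricDist.norm_add_eq_max_of_norm_ne_norm h
  rw [add_comm, this, norm_one, max_eq_right hy.le]

theorem hensel_aux [CompleteSpace K] [CharZero K] (c z : K) (hc : ‖c‖ < ‖(2 : K)‖)
    (hz : ‖z‖ ≤ ‖c‖) : ∃ y : K, ‖y‖ ≤ ‖c‖ ∧ y + y ^ 2 / 2 = z := by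
  have h2 : 0 < ‖(2 : K)‖ := norm_pos_iff.2 two_ne_zero
  set k : ℝ := ‖c‖ / ‖(2 : K)‖ with hk
  have hk0 : 0 ≤ k := by positivity
  have hk1 : k < 1 := (div_lt_one h2).2 hc
  let f : K → K := fun y => z - y ^ 2 / 2
  let s : ℕ → K := fun n => f^[n] z
  have hs0 : ∀ n, s (n + 1) = f (s n) := fun n => Function.iterate_succ_apply' f n z
  have hball : ∀ n, ‖s n‖ ≤ ‖c‖ := by
    intro n
    induction n with
    | zero => exact hz
    | succ n ih =>
      rw [hs0]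
      show ‖z - s n ^ 2 / 2‖ ≤ ‖c‖
      refine (norm_sub_le_max' _ _).trans (max_le hz ?_)
      rw [norm_div, norm_pow, sq]
      calc ‖s n‖ * ‖s n‖ / ‖(2 : K)‖ ≤ ‖c‖ * ‖c‖ / ‖(2 : K)‖ := by gcongr
        _ = ‖c‖ * k := by rw [hk]; ring
        _ ≤ ‖c‖ := mul_le_of_le_one_right (norm_nonneg _) hk1.le
  have hdiff : ∀ n, ‖s (n + 1) - s n‖ ≤ ‖c‖ * k ^ n := by
    intro n
    induction n with
    | zero =>
      rw [pow_zero, mul_one]
      exact (norm_sub_le_max' _ _).trans (max_le (hball _) (hball _))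
    | succ n ih =>
      have e : s (n + 1 + 1) - s (n + 1) = -((s (n + 1) - s n) * ((s (n + 1) + s n) / 2)) := by
        have e1 : s (n + 1 + 1) = z - s (n + 1) ^ 2 / 2 := hs0 (n + 1)
        have e2 : s (n + 1) = z - s n ^ 2 / 2 := hs0 n
        rw [e1]
        linear_combination (-1 : K) * e2
      rw [e, norm_neg, norm_mul, norm_div]
      have h3 : ‖s (n + 1) + s n‖ / ‖(2 : K)‖ ≤ k := by
        rw [hk]
        gcongr
        exact (IsUltrametricDist.norm_add_le_max _ _).trans (max_le (hball _) (hball _))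
      calc ‖s (n + 1) - s n‖ * (‖s (n + 1) + s n‖ / ‖(2 : K)‖) ≤ (‖c‖ * k ^ n) * k := by
            gcongr
        _ = ‖c‖ * k ^ (n + 1) := by ring
  have hcauchy : CauchySeq s := by
    refine cauchySeq_of_le_geometric k ‖c‖ hk1 fun n => ?_
    rw [dist_comm, dist_eq_norm]
    exact hdiff n
  obtain ⟨y, hy⟩ := cauchySeq_tendsto_of_complete hcauchy
  refine ⟨y, ?_, ?_⟩
  · exact le_of_tendsto hy.norm (Eventually.of_forall hball)
  · have h4 : Tendsto (fun n => s (n + 1)) atTop (𝓝 y) := (tendsto_add_atTop_iff_nat 1).2 hy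
    have h5 : Tendsto (fun n => f (s n)) atTop (𝓝 (z - y ^ 2 / 2)) :=
      ((hy.pow 2).div_const 2).const_sub z
    have h6 : y = z - y ^ 2 / 2 := by
      refine tendsto_nhds_unique h4 ?_
      simpa only [hs0] using h5
    linear_combination h6

theorem pf_HEN : T_HEN := by
  intro K _ _ _ _ c hc hc2
  have h2 : 0 < ‖(2 : K)‖ := norm_pos_iff.2 two_ne_zero
  have hc1 : ‖c‖ < 1 := hc2.trans_le norm_two_le
  ext u
  constructor
  · rintro ⟨v, ⟨hv1, hv2⟩, rfl⟩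
    rw [powMonoidHom_apply]
    refine ⟨?_, ?_⟩
    · rw [Units.val_pow_eq_pow_val]
      have e : (v : K) ^ 2 - 1 = 2 * ((v : K) - 1) + ((v : K) - 1) ^ 2 := by ring
      rw [e, norm_mul]
      refine (IsUltrametricDist.norm_add_le_max _ _).trans (max_le ?_ ?_)
      · rw [norm_mul]; gcongr
      · rw [norm_pow, sq]
        calc ‖(v : K) - 1‖ * ‖(v : K) - 1‖ ≤ ‖c‖ * ‖c‖ := by gcongr
          _ ≤ ‖(2 : K)‖ * ‖c‖ := by gcongr
    · rw [Units.val_pow_eq_pow_val, norm_pow, hv2, one_pow]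
  · rintro ⟨hu1, hu2⟩
    rw [norm_mul] at hu1
    obtain ⟨y, hy1, hy2⟩ := hensel_aux c (((u : K) - 1) / 2) hc2 (by
      rw [norm_div, div_le_iff₀ h2]
      linarith [mul_comm ‖(2 : K)‖ ‖c‖])
    have hy3 : ‖1 + y‖ = 1 := norm_one_add (hy1.trans_lt hc1)
    have hy4 : 1 + y ≠ 0 := by
      intro h; rw [h, norm_zero] at hy3; exact zero_ne_one hy3
    refine ⟨Units.mk0 (1 + y) hy4, ⟨?_, hy3⟩, ?_⟩
    · rw [Units.val_mk0, add_sub_cancel_left]
      exact hy1
    · ext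
      rw [powMonoidHom_apply, Units.val_pow_eq_pow_val, Units.val_mk0]
      have h2' : (2 : K) ≠ 0 := two_ne_zero
      field_simp at hy2
      linear_combination hy2

theorem pf_OPN (hHEN : T_HEN) : T_OPN := by
  intro K _ _ _ _ c0 hc0
  have h2 : 0 < ‖(2 : K)‖ := norm_pos_iff.2 two_ne_zero
  obtain ⟨c, hc1, hc2⟩ := NormedField.exists_norm_lt K h2
  have hc : c ≠ 0 := norm_pos_iff.1 hc1
  have h2c : 0 < ‖2 * c‖ := by rw [norm_mul]; positivity
  have h2c1 : ‖2 * c‖ < 1 := by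
    rw [norm_mul]
    have h3 : ‖(2 : K)‖ ≤ 1 := norm_two_le
    have : ‖c‖ < 1 := hc2.trans_le h3
    nlinarith [norm_nonneg c]
  have hc0' : 0 < ‖c0‖ := norm_pos_iff.2 hc0
  refine ⟨‖c0‖ * ‖2 * c‖, by positivity, fun x hx => ?_⟩
  have h4 : ‖x / c0 - 1‖ < ‖2 * c‖ := by
    have e : x / c0 - 1 = (x - c0) / c0 := by field_simp
    rw [e, norm_div, div_lt_iff₀ hc0']
    linarith [mul_comm ‖c0‖ ‖2 * c‖]
  have h5 : ‖x / c0‖ = 1 := by
    have := norm_one_add (h4.trans h2c1)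
    rwa [add_sub_cancel] at this
  have h6 : x / c0 ≠ 0 := by
    intro h; rw [h, norm_zero] at h5; exact zero_ne_one h5
  have h7 : x ≠ 0 := by
    rintro rfl; exact h6 (zero_div _)
  refine ⟨h7, ?_⟩
  have h8 : Units.mk0 (x / c0) h6 ∈ Un K (2 * c) := ⟨h4.le, h5⟩
  rw [← hHEN K c hc hc2] at h8
  obtain ⟨v, -, hv⟩ := h8
  refine ⟨(v : K), ?_⟩
  have := congrArg (fun u : Kˣ => (u : K)) hv
  simp only [powMonoidHom_apply, Units.val_pow_eq_pow_val, Units.val_mk0] at this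
  rw [← this, sq]

end Pool.Agent.H55.QCL
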