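import Pool.Agent.H32.QC.TargetsL

/-!
# NIX: the local norm index
-/

set_option autoImplicit false

open NumberField IsDedekindDomain Pool.Agent.H32.QC

namespace Pool.Agent.H55.QCL

theorem pf_NIX (hNIA : T_NIA) (hCAR : T_CAR) (hCSQ : T_CSQ) (hQEX : T_QEX) : T_NIX := by
  intro K _ _ _ _ t _ ht
  obtain ⟨L, _, _, _, _, _, s, hL, hs⟩ := hQEX K t ht
  obtain ⟨h1, h2⟩ := hCAR K
  obtain ⟨h3, h4⟩ := hCAR L
  have h5 := hCSQ K L hL
  have hK : nsq K ≠ 0 := by rw [h1]; omega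
  have hL' : nsq L ≠ 0 := by rw [h3]; omega
  obtain ⟨N, hN1, hN2⟩ := hNIA K L t s two_ne_zero ht hs hL hK hL'
  refine ⟨N, ?_, hN1⟩
  rw [h3, h5, h1] at hN2
  have hc : 0 < c2 K ^ 2 := pow_pos (Nat.pos_of_ne_zero h2) 2
  have h6 : (8 * c2 K ^ 2) * N.index = (8 * c2 K ^ 2) * 2 := by
    calc (8 * c2 K ^ 2) * N.index = 2 * (4 * c2 K ^ 2) * N.index := by ring
      _ = (4 * c2 K) ^ 2 := hN2
      _ = (8 * c2 K ^ 2) * 2 := by ring
  exact Nat.eq_of_mul_eq_mul_left (by positivity) h6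

end Pool.Agent.H55.QCL
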