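import Pool.Agent.H55.QCL.HEN

/-!
# OFI and UIX: indices of balls and of small units
-/

set_option autoImplicit false

open NumberField IsDedekindDomain Pool.Agent.H32.QC Filter Topology

namespace Pool.Agent.H55.QCL

theorem ball_fin (K : Type) [NontriviallyNormedField K] [IsUltrametricDist K] [ProperSpace K]
    (c : K) (hc : c ≠ 0) (d : K) : Finite (Bl K d ⧸ (Bl K c).addSubgroupOf (Bl K d)) := by
  have hcomp : CompactSpace (Bl K d) := by
    have h0 : ((Bl K d : AddSubgroup K) : Set K) = Metric.closedBall 0 ‖d‖ := by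
      ext x
      simp [Bl]
    have h1 : IsCompact ((Bl K d : AddSubgroup K) : Set K) := by
      rw [h0]
      exact isCompact_closedBall 0 ‖d‖
    exact isCompact_iff_compactSpace.1 h1
  have hopen : IsOpen (((Bl K c).addSubgroupOf (Bl K d) : AddSubgroup (Bl K d)) :
      Set (Bl K d)) := by
    have h1 : IsOpen ((Bl K c : AddSubgroup K) : Set K) := by
      have : ((Bl K c : AddSubgroup K) : Set K) = Metric.closedBall 0 ‖c‖ := by
        ext x
        simp [Bl]
      rw [this]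
      exact IsUltrametricDist.isOpen_closedBall 0 (norm_pos_iff.2 hc).ne'
    exact h1.preimage continuous_subtype_val
  exact AddSubgroup.quotient_finite_of_isOpen _ hopen

theorem pf_OFI : T_OFI := by
  intro K _ _ _ c hc
  refine ⟨?_, fun d => ?_⟩
  · have hfin := ball_fin K c hc 1
    have key : ∀ u v : Un K 1, ((u : Kˣ) : K) - ((v : Kˣ) : K) ∈ Bl K c →
        (v⁻¹ * u : Un K 1) ∈ (Un K c).subgroupOf (Un K 1) := by
      rintro ⟨u, hu1, hu2⟩ ⟨v, hv1, hv2⟩ h
      have h' : ‖(u : K) - (v : K)‖ ≤ ‖c‖ := h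
      rw [Subgroup.mem_subgroupOf]
      have hv0 : (v : K) ≠ 0 := v.ne_zero
      refine ⟨?_, ?_⟩
      · show ‖((v⁻¹ * u : Kˣ) : K) - 1‖ ≤ ‖c‖
        have e : ((v⁻¹ * u : Kˣ) : K) - 1 = ((u : K) - v) / v := by
          push_cast
          field_simp
        rw [e, norm_div, hv2, div_one]
        exact h'
      · show ‖((v⁻¹ * u : Kˣ) : K)‖ = 1
        push_cast
        rw [norm_mul, norm_inv, hu2, hv2]
        simp
    let f : Un K 1 → Bl K 1 ⧸ (Bl K c).addSubgroupOf (Bl K 1) := fun u =>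
      QuotientAddGroup.mk ⟨((u : Kˣ) : K), by
        show ‖((u : Kˣ) : K)‖ ≤ ‖(1 : K)‖
        rw [u.2.2, norm_one]⟩
    have hf : ∀ u v, f u = f v → (QuotientGroup.mk u : Un K 1 ⧸ (Un K c).subgroupOf (Un K 1)) =
        QuotientGroup.mk v := by
      intro u v h
      rw [QuotientAddGroup.eq] at h
      rw [QuotientGroup.eq]
      have h2 : -((u : Kˣ) : K) + ((v : Kˣ) : K) ∈ Bl K c := h
      apply key
      rwa [neg_add_eq_sub] at h2
    have hfin2 : Finite (Un K 1 ⧸ (Un K c).subgroupOf (Un K 1)) := by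
      refine Finite.of_injective (fun q => f (Quotient.out q)) ?_
      intro q r h
      have := hf _ _ h
      rwa [QuotientGroup.out_eq', QuotientGroup.out_eq'] at this
    exact Subgroup.index_ne_zero_of_finite
  · have hfin := ball_fin K c hc d
    exact AddSubgroup.index_ne_zero_of_finite

theorem pf_UIX : T_UIX := by
  intro K _ _ _ _ c hc hc1 _
  have hc0 : 0 < ‖c‖ := norm_pos_iff.2 hc
  unfold c2
  show Nat.card (Un K c ⧸ (Un K (2 * c)).subgroupOf (Un K c)) =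
    Nat.card (Bl K 1 ⧸ (Bl K 2).addSubgroupOf (Bl K 1))
  let g : Un K c → Bl K 1 := fun u => ⟨(((u : Kˣ) : K) - 1) / c, by
    show ‖(((u : Kˣ) : K) - 1) / c‖ ≤ ‖(1 : K)‖
    rw [norm_div, norm_one, div_le_one hc0]
    exact u.2.1⟩
  have hg : ∀ u v : Un K c, (QuotientGroup.mk u : Un K c ⧸ (Un K (2 * c)).subgroupOf (Un K c)) =
      QuotientGroup.mk v ↔ (QuotientAddGroup.mk (g u) : Bl K 1 ⧸ (Bl K 2).addSubgroupOf (Bl K 1)) =
        QuotientAddGroup.mk (g v) := by
    intro u v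
    rw [QuotientGroup.eq, QuotientAddGroup.eq, Subgroup.mem_subgroupOf,
      AddSubgroup.mem_addSubgroupOf]
    obtain ⟨u, hu1, hu2⟩ := u
    obtain ⟨v, hv1, hv2⟩ := v
    have hu0 : (u : K) ≠ 0 := u.ne_zero
    have e1 : ((-(g ⟨u, hu1, hu2⟩) + g ⟨v, hv1, hv2⟩ : Bl K 1) : K) = ((v : K) - u) / c := by
      show -(((u : K) - 1) / c) + (((v : K) - 1) / c) = _
      ring
    have e2 : ((u⁻¹ * v : Kˣ) : K) - 1 = ((v : K) - u) / u := by
      push_cast
      field_simp
    have e3 : ‖((u⁻¹ * v : Kˣ) : K)‖ = 1 := by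
      push_cast
      rw [norm_mul, norm_inv, hu2, hv2]
      simp
    constructor
    · rintro ⟨h, -⟩
      have h' : ‖((u⁻¹ * v : Kˣ) : K) - 1‖ ≤ ‖2 * c‖ := h
      rw [e2, norm_div, hu2, div_one, norm_mul] at h'
      show ‖((-(g ⟨u, hu1, hu2⟩) + g ⟨v, hv1, hv2⟩ : Bl K 1) : K)‖ ≤ ‖(2 : K)‖
      rw [e1, norm_div, div_le_iff₀ hc0]
      exact h'
    · intro h
      have h' : ‖((-(g ⟨u, hu1, hu2⟩) + g ⟨v, hv1, hv2⟩ : Bl K 1) : K)‖ ≤ ‖(2 : K)‖ := h
      rw [e1, norm_div, div_le_iff₀ hc0] at h'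
      refine ⟨?_, e3⟩
      show ‖((u⁻¹ * v : Kˣ) : K) - 1‖ ≤ ‖2 * c‖
      rw [e2, norm_div, hu2, div_one, norm_mul]
      exact h'
  let F : (Un K c ⧸ (Un K (2 * c)).subgroupOf (Un K c)) →
      (Bl K 1 ⧸ (Bl K 2).addSubgroupOf (Bl K 1)) :=
    fun q => QuotientAddGroup.mk (g (Quotient.out q))
  refine Nat.card_congr (Equiv.ofBijective F ⟨?_, ?_⟩)
  · intro q r h
    have := (hg _ _).2 h
    rwa [QuotientGroup.out_eq', QuotientGroup.out_eq'] at this
  · intro y
    obtain ⟨⟨x, hx⟩, rfl⟩ := QuotientAddGroup.mk_surjective y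
    have hx' : ‖x‖ ≤ 1 := by
      have : ‖x‖ ≤ ‖(1 : K)‖ := hx
      rwa [norm_one] at this
    have hcx : ‖c * x‖ ≤ ‖c‖ := by
      rw [norm_mul]
      exact mul_le_of_le_one_right (norm_nonneg _) hx'
    have h1 : ‖1 + c * x‖ = 1 := norm_one_add (hcx.trans_lt hc1)
    have h0 : 1 + c * x ≠ 0 := by
      intro h; rw [h, norm_zero] at h1; exact zero_ne_one h1
    let u : Un K c := ⟨Units.mk0 (1 + c * x) h0, by
      refine ⟨?_, h1⟩
      rw [Units.val_mk0, add_sub_cancel_left]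
      exact hcx⟩
    refine ⟨QuotientGroup.mk u, ?_⟩
    show (QuotientAddGroup.mk (g (Quotient.out (QuotientGroup.mk u :
      Un K c ⧸ (Un K (2 * c)).subgroupOf (Un K c)))) :
      Bl K 1 ⧸ (Bl K 2).addSubgroupOf (Bl K 1)) = _
    have h2 := (hg (Quotient.out (QuotientGroup.mk u :
      Un K c ⧸ (Un K (2 * c)).subgroupOf (Un K c))) u).1 (QuotientGroup.out_eq' _)
    rw [h2]
    congr 1
    apply Subtype.ext
    show (((Units.mk0 (1 + c * x) h0 : Kˣ) : K) - 1) / c = x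
    rw [Units.val_mk0]
    field_simp
    ring

end Pool.Agent.H55.QCL
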