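import Pool.Agent.H32.QC.TargetsL

/-!
# QEX: a quadratic extension of a local field is a local field
-/

set_option autoImplicit false

open NumberField IsDedekindDomain Pool.Agent.H32.QC

namespace Pool.Agent.H55.QCL

theorem pf_QEX : T_QEX := by
  intro K _ _ _ _ t ht
  haveI hF : Fact (∀ r : K, r ^ 2 ≠ t + 0 * r) :=
    ⟨fun r hr => ht ⟨r, by rw [zero_mul, add_zero] at hr; rw [← hr]; ring⟩⟩
  haveI : Algebra.IsAlgebraic K (QuadraticAlgebra K t 0) := Algebra.IsAlgebraic.of_finite K _
  letI nL : NontriviallyNormedField (QuadraticAlgebra K t 0) :=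
    spectralNorm.nontriviallyNormedField K (QuadraticAlgebra K t 0)
  haveI uL : IsUltrametricDist (QuadraticAlgebra K t 0) :=
    IsUltrametricDist.isUltrametricDist_of_isNonarchimedean_norm
      (isNonarchimedean_spectralNorm (K := K) (L := QuadraticAlgebra K t 0))
  letI aL : NormedAlgebra K (QuadraticAlgebra K t 0) :=
    spectralNorm.normedAlgebra K (QuadraticAlgebra K t 0)
  haveI pL : ProperSpace (QuadraticAlgebra K t 0) :=
    FiniteDimensional.proper K (QuadraticAlgebra K t 0)
  haveI cL : CharZero (QuadraticAlgebra K t 0) :=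
    charZero_of_injective_algebraMap (algebraMap K (QuadraticAlgebra K t 0)).injective
  refine ⟨QuadraticAlgebra K t 0, nL, uL, pL, cL, aL, ⟨0, 1⟩, ?_, ?_⟩
  · exact QuadraticAlgebra.finrank_eq_two t 0
  · show (⟨0, 1⟩ : QuadraticAlgebra K t 0) ^ 2 = algebraMap K (QuadraticAlgebra K t 0) t
    rw [sq]
    ext <;> simp

end Pool.Agent.H55.QCL
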