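import Pool.Agent.H32.QC.TargetsL

/-!
# SQI and TFI: the index of the squares, computed in a subgroup of finite index
-/

set_option autoImplicit false

open NumberField IsDedekindDomain Pool.Agent.H32.QC

namespace Pool.Agent.H55.QCL

theorem pf_SQI : T_SQI := by
  intro A _ U hU hU1 hT
  set q : A →* A := powMonoidHom 2 with hq
  have hUq : U.map q ≤ U := by
    rintro _ ⟨u, hu, rfl⟩
    rw [hq, powMonoidHom_apply]
    exact U.pow_mem hu 2
  have hUr : U.map q ≤ q.range := Subgroup.map_le_range q U
  have h1 : (U.map q).relIndex q.range * q.range.index =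
      (U.map q).relIndex U * U.index := by
    rw [Subgroup.relIndex_mul_index hUr, Subgroup.relIndex_mul_index hUq]
  have h2 : (U.map q).relIndex q.range = (U ⊔ q.ker).index := by
    rw [← Subgroup.index_comap, Subgroup.comap_map_eq]
  have h3 : U.relIndex (U ⊔ q.ker) * (U ⊔ q.ker).index = U.index :=
    Subgroup.relIndex_mul_index le_sup_left
  have h4 : U.relIndex (U ⊔ q.ker) = 2 := by
    rw [Subgroup.relIndex_sup_left, ← Subgroup.inf_relIndex_right]
    have h5 : U ⊓ q.ker = ⊥ := by
      rw [Subgroup.eq_bot_iff_forall]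
      rintro x ⟨hx1, hx2⟩
      have hx3 : x ^ 2 = 1 := hx2
      exact hU1 x hx1 hx3
    rw [h5, Subgroup.relIndex_bot_left, ← hT]
    refine Nat.card_congr (Equiv.subtypeEquivRight fun a => ?_)
    rw [MonoidHom.mem_ker, hq, powMonoidHom_apply]
  have h6 : (U ⊔ q.ker).index ≠ 0 := by
    intro h
    rw [h, mul_zero] at h3
    exact hU h3.symm
  rw [h2, ← h3, h4] at h1
  have h7 : (U ⊔ q.ker).index * q.range.index = (U ⊔ q.ker).index *
      (2 * (U.map q).relIndex U) := by
    rw [h1]; ring
  exact Nat.eq_of_mul_eq_mul_left (Nat.pos_of_ne_zero h6) h7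

theorem pf_TFI : T_TFI := by
  intro A _ hA B hB
  set f : A →+ A := nsmulAddMonoidHom 2 with hf
  have hinj : Function.Injective f := by
    rw [injective_iff_map_eq_zero]
    intro x hx
    exact hA x hx
  have hBf : B.map f ≤ B := by
    rintro _ ⟨u, hu, rfl⟩
    exact B.nsmul_mem hu 2
  have hBr : B.map f ≤ f.range := AddSubgroup.map_le_range f B
  have h1 : (B.map f).relIndex f.range * f.range.index =
      (B.map f).relIndex B * B.index := by
    rw [AddSubgroup.relIndex_mul_index hBr, AddSubgroup.relIndex_mul_index hBf]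
  have h2 : (B.map f).relIndex f.range = B.index := by
    rw [← AddSubgroup.index_comap, AddSubgroup.comap_map_eq_self_of_injective hinj]
  rw [h2] at h1
  have h3 : B.index * f.range.index = B.index * (B.map f).relIndex B := by
    rw [h1]; ring
  exact Nat.eq_of_mul_eq_mul_left (Nat.pos_of_ne_zero hB) h3

end Pool.Agent.H55.QCL
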