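import Pool.Agent.H32.QC.TargetsL

/-!
# VAL: the value group of a local field is cyclic
-/

set_option autoImplicit false

open NumberField IsDedekindDomain Pool.Agent.H32.QC Filter Topology

namespace Pool.Agent.H55.QCL

theorem pf_VAL : T_VAL := by
  intro K _ _ _
  have hcl : IsClosed (Metric.ball (0 : K) 1) := IsUltrametricDist.isClosed_ball 0 1
  have hcomp : IsCompact (Metric.ball (0 : K) 1) :=
    Metric.isCompact_of_isClosed_isBounded hcl Metric.isBounded_ball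
  obtain ⟨x0, hx0, hx1⟩ := NormedField.exists_norm_lt K (zero_lt_one' ℝ)
  obtain ⟨π, hπ, hmax⟩ := hcomp.exists_isMaxOn ⟨0, by simp⟩ continuous_norm.continuousOn
  have hx0' : x0 ∈ Metric.ball (0 : K) 1 := by simpa using hx1
  have h0 : 0 < ‖π‖ := hx0.trans_le (hmax hx0')
  have h1 : ‖π‖ < 1 := by simpa using hπ
  have hπ0 : π ≠ 0 := norm_pos_iff.1 h0
  refine ⟨π, hπ0, h1, fun x hx => ?_⟩
  have hx' : 0 < ‖x‖ := norm_pos_iff.2 hx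
  obtain ⟨n, hn1, hn2⟩ := exists_mem_Ico_zpow hx' ((one_lt_inv₀ h0).2 h1)
  -- ‖π‖⁻¹ ^ n ≤ ‖x‖ < ‖π‖⁻¹ ^ (n + 1)
  refine ⟨-n - 1 + 1, ?_⟩
  have e1 : (-n - 1 + 1 : ℤ) = -n := by ring
  rw [e1]
  rw [inv_zpow'] at hn1 hn2
  have hn : 0 < ‖π‖ ^ (-(n + 1)) := zpow_pos h0 _
  -- y = x * π ^ (n + 1), norm in [‖π‖, 1)
  have hy1 : ‖x * π ^ (n + 1)‖ < 1 := by
    rw [norm_mul, norm_zpow]
    have : ‖x‖ * ‖π‖ ^ (n + 1) < ‖π‖ ^ (-(n + 1)) * ‖π‖ ^ (n + 1) :=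
      mul_lt_mul_of_pos_right hn2 (zpow_pos h0 _)
    rwa [← zpow_add₀ h0.ne', neg_add_cancel, zpow_zero] at this
  have hy2 : ‖x * π ^ (n + 1)‖ ≤ ‖π‖ := hmax (by simpa using hy1)
  rw [norm_mul, norm_zpow, zpow_add_one₀ h0.ne'] at hy2
  refine le_antisymm ?_ hn1
  have h3 : ‖x‖ * ‖π‖ ^ n ≤ 1 := by
    by_contra hcon
    push Not at hcon
    nlinarith
  have h4 : 0 < ‖π‖ ^ n := zpow_pos h0 n
  rw [zpow_neg, ← one_div, le_div_iff₀ h4]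
  exact h3

end Pool.Agent.H55.QCL
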